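import Pool.Agent.W106.CW.Stm

/-!
# Project CW (helper106): the auxiliary function has all its properties
-/

set_option autoImplicit false

namespace Pool.Agent.W303.CW

open Pool.Agent.W106.CW Set

theorem gam_root (h1 : RootEx) {s c : ℝ} (hc0 : 0 < c) (hc1 : c < 1) : Root s c (gam s c) := by
  have h := h1.1 s c hc0 hc1
  unfold gam
  rw [dif_pos h]
  exact Classical.choose_spec h

theorem mm_num {s c g : ℝ} (hc0 : 0 < c) (hc1 : c < 1) (hgc : g ≤ c) (hR : Root s c g) :
    g * (2 - c) ^ 2 ≤ (2 - g) ^ 2 * (1 - 2 * s * g) * c := by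
  obtain ⟨g0, g2, gk, ge⟩ := hR
  have hlog : Real.log c - Real.log g ≤ c / g - 1 := by
    rw [← Real.log_div hc0.ne' g0.ne']
    exact Real.log_le_sub_one_of_pos (div_pos hc0 g0)
  have hlog' : g * (Real.log c - Real.log g) ≤ c - g := by
    have := mul_le_mul_of_nonneg_left hlog g0.le
    have e : g * (c / g - 1) = c - g := by field_simp
    rwa [e] at this
  unfold Lam at ge
  have e : (2 - g) ^ 2 * (1 - 2 * s * g) * c - g * (2 - c) ^ 2 =
      (c - g) * (4 + g * c) - 4 * c * (g * (Real.log c - Real.log g)) := by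
    have hs : (2 - g) ^ 2 * s = 2 * Real.log c - c - (2 * Real.log g - g) := by linarith
    calc (2 - g) ^ 2 * (1 - 2 * s * g) * c - g * (2 - c) ^ 2
        = (2 - g) ^ 2 * c - 2 * g * c * ((2 - g) ^ 2 * s) - g * (2 - c) ^ 2 := by ring
      _ = _ := by rw [hs]; ring
  have h3 : 4 * c * (g * (Real.log c - Real.log g)) ≤ 4 * c * (c - g) :=
    mul_le_mul_of_nonneg_left hlog' (by positivity)
  have h4 : 0 ≤ (c - g) * (4 + g * c) - 4 * c * (c - g) := by
    have : (c - g) * (4 + g * c) - 4 * c * (c - g) = (c - g) * (4 * (1 - c) + g * c) := by ring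
    rw [this]
    apply mul_nonneg (by linarith)
    have : 0 < g * c := mul_pos g0 hc0
    linarith
  linarith

/-- derivative of `mm` in the second variable -/
theorem mm_der (h1 : RootEx) (h2 : RootDer) {s c : ℝ} (hc0 : 0 < c) (hc1 : c < 1) :
    HasDerivAt (mm s) (2 * ((3 * (2 - gam s c) ^ 3 * c ^ 2 * (1 - 2 * s * gam s c) ^ 3
      - gam s c * (2 - c) ^ 4
      + 2 * gam s c * (2 - gam s c) * (1 - 2 * c) * (2 - c) ^ 2 * (1 - 2 * s * gam s c) ^ 2) /
      (c ^ 2 * (2 - gam s c) * (2 - c) ^ 4 * (1 - 2 * s * gam s c) ^ 3))) c := by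
  obtain ⟨g0, g2, gk, ge⟩ := gam_root h1 (s := s) hc0 hc1
  have hg := h2.2.1 s c hc0 hc1
  set g := gam s c with hgdef
  have hk : 0 < 1 - 2 * s * g := by linarith
  have h2c : 0 < 2 - c := by linarith
  have h2g : 0 < 2 - g := by linarith
  have hid := hasDerivAt_id c
  -- the pieces
  have d1 : HasDerivAt (fun c' => (2 - gam s c') ^ 2)
      (2 * (2 - g) ^ 1 * (0 - ((2 - c) * g / (c * (2 - g) * (1 - 2 * s * g))))) c := by
    have := ((hasDerivAt_const c (2 : ℝ)).sub hg).pow 2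
    refine HasDerivAt.congr_deriv (f := fun c' => (2 - gam s c') ^ 2) (by exact this) ?_
    simp only [Pi.sub_apply, ← hgdef]
    norm_num
  have d2 : HasDerivAt (fun c' : ℝ => (2 - c') ^ 3) (3 * (2 - c) ^ 2 * (0 - 1)) c := by
    have := ((hasDerivAt_const c (2 : ℝ)).sub hid).pow 3
    refine HasDerivAt.congr_deriv (f := fun c' : ℝ => (2 - c') ^ 3) (by exact this) ?_
    simp
  have d3 : HasDerivAt (fun c' => (1 - 2 * s * gam s c') * (c' * (2 - c')))
      ((0 - 2 * s * ((2 - c) * g / (c * (2 - g) * (1 - 2 * s * g)))) * (c * (2 - c)) +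
        (1 - 2 * s * g) * (1 * (2 - c) + c * (0 - 1))) c := by
    have a1 := (hasDerivAt_const c (1 : ℝ)).sub (hg.const_mul (2 * s))
    have a2 := hid.mul ((hasDerivAt_const c (2 : ℝ)).sub hid)
    exact a1.mul a2
  have n2 : (2 - c) ^ 3 ≠ 0 := by positivity
  have n3 : (1 - 2 * s * g) * (c * (2 - c)) ≠ 0 := by positivity
  have D := ((d1.div d2 n2).sub (hg.div d3 n3)).const_mul 2
  refine D.congr_deriv ?_
  have hcne := hc0.ne'
  have hkne := hk.ne'
  have h2cne := h2c.ne'
  have h2gne := h2g.ne'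
  simp only [← hgdef]
  have e : ∀ k : ℝ, k = 1 - 2 * s * g → k ≠ 0 →
      2 * ((2 * (2 - g) ^ 1 * (0 - (2 - c) * g / (c * (2 - g) * k)) * (2 - c) ^ 3 -
            (2 - g) ^ 2 * (3 * (2 - c) ^ 2 * (0 - 1))) / ((2 - c) ^ 3) ^ 2 -
        ((2 - c) * g / (c * (2 - g) * k) * (k * (c * (2 - c))) -
            g * ((0 - 2 * s * ((2 - c) * g / (c * (2 - g) * k))) * (c * (2 - c)) +
                k * (1 * (2 - c) + c * (0 - 1)))) / (k * (c * (2 - c))) ^ 2) =
      2 * ((3 * (2 - g) ^ 3 * c ^ 2 * k ^ 3 - g * (2 - c) ^ 4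
        + 2 * g * (2 - g) * (1 - 2 * c) * (2 - c) ^ 2 * k ^ 2) /
      (c ^ 2 * (2 - g) * (2 - c) ^ 4 * k ^ 3)) := by
    intro k hkd hk0
    have hs : 2 * s * g = 1 - k := by rw [hkd]; ring
    have h5 : g * ((0 - 2 * s * ((2 - c) * g / (c * (2 - g) * k))) * (c * (2 - c)) +
                k * (1 * (2 - c) + c * (0 - 1))) =
        -((2 * s * g) * (((2 - c) * g / (c * (2 - g) * k)) * (c * (2 - c)))) +
          g * k * (1 * (2 - c) + c * (0 - 1)) := by ring
    rw [h5, hs]
    field_simp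
    ring
  exact e _ rfl hkne

theorem fGood (h1 : RootEx) (h2 : RootDer) (h3 : QIneq) : FGood := by
  have hroot : ∀ s c, 0 < c → c < 1 → Root s c (gam s c) := fun s c hc0 hc1 =>
    gam_root h1 hc0 hc1
  have hcg : ContinuousOn (fun p : ℝ × ℝ => gam p.1 p.2) (Set.univ ×ˢ Set.Ioo 0 1) := h2.1
  have hcc : ContinuousOn (fun p : ℝ × ℝ => p.2) (Set.univ ×ˢ Set.Ioo (0 : ℝ) 1) :=
    continuous_snd.continuousOn
  refine ⟨?_, ?_, ?_, ?_, ?_, ?_, ?_, ?_, ?_⟩
  · -- init
    intro c hc0 hc1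
    have hR : Root 0 c c := ⟨hc0, by linarith, by simp, by simp⟩
    have e : gam 0 c = c := h1.2.1 0 c _ _ (hroot 0 c hc0 hc1) hR
    unfold ff
    rw [e, div_self (by linarith), one_pow]
  · -- lb
    intro s c hs hc0 hc1
    have hR := hroot s c hc0 hc1
    have hle := (h1.2.2 s c _ hs hc0 hc1 hR).1
    unfold ff
    apply one_le_pow₀
    rw [one_le_div (by linarith)]
    linarith
  · -- ub
    intro s c hs hc0 hc1
    have hR := hroot s c hc0 hc1
    have hle := (h1.2.2 s c _ hs hc0 hc1 hR).1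
    have hg0 := hR.1
    unfold ff
    have h2c : 0 < 2 - c := by linarith
    have hq : (2 - gam s c) / (2 - c) ≤ 2 := by
      rw [div_le_iff₀ h2c]; linarith
    have hq0 : 0 ≤ (2 - gam s c) / (2 - c) := div_nonneg (by linarith) h2c.le
    calc ((2 - gam s c) / (2 - c)) ^ 2 ≤ 2 ^ 2 := pow_le_pow_left₀ hq0 hq 2
      _ = 4 := by norm_num
  · -- mpos
    intro s c hs hc0 hc1
    have hR := hroot s c hc0 hc1
    have hle := (h1.2.2 s c _ hs hc0 hc1 hR).1
    have hnum := mm_num hc0 hc1 hle hR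
    obtain ⟨g0, g2, gk, ge⟩ := hR
    unfold mm
    set g := gam s c with hgdef
    have hk : 0 < 1 - 2 * s * g := by linarith
    have h2c : 0 < 2 - c := by linarith
    have : g / ((1 - 2 * s * g) * (c * (2 - c))) ≤ (2 - g) ^ 2 / (2 - c) ^ 3 := by
      rw [div_le_div_iff₀ (by positivity) (by positivity)]
      nlinarith [mul_le_mul_of_nonneg_right hnum h2c.le]
    linarith
  · -- mono
    intro s hs
    have hd : ∀ c ∈ Ioo (0 : ℝ) 1, HasDerivAt (mm s) _ c := fun c hc =>
      mm_der h1 h2 (s := s) hc.1 hc.2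
    apply monotoneOn_of_deriv_nonneg (convex_Ioo 0 1)
    · exact fun c hc => (hd c hc).continuousAt.continuousWithinAt
    · rw [interior_Ioo]
      exact fun c hc => (hd c hc).differentiableAt.differentiableWithinAt
    · rw [interior_Ioo]
      intro c hc
      rw [(hd c hc).deriv]
      have hR := hroot s c hc.1 hc.2
      have hle := (h1.2.2 s c _ hs hc.1 hc.2 hR).1
      obtain ⟨g0, g2, gk, ge⟩ := hR
      have hk : 0 < 1 - 2 * s * gam s c := by linarith
      have hq := h3 s c (gam s c) hs g0 hle hc.2 hk ge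
      have h2c : 0 < 2 - c := by linarith [hc.2]
      have h2g : 0 < 2 - gam s c := by linarith
      have hc0 := hc.1
      have hden : 0 < c ^ 2 * (2 - gam s c) * (2 - c) ^ 4 * (1 - 2 * s * gam s c) ^ 3 := by
        positivity
      exact mul_nonneg (by norm_num) (div_nonneg hq hden.le)
  · -- derc
    intro s c hc0 hc1
    obtain ⟨g0, g2, gk, ge⟩ := hroot s c hc0 hc1
    have hg := h2.2.1 s c hc0 hc1
    unfold mm
    set g := gam s c with hgdef
    have hk : 0 < 1 - 2 * s * g := by linarith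
    have h2c : 0 < 2 - c := by linarith
    have h2g : 0 < 2 - g := by linarith
    have a1 := (hasDerivAt_const c (2 : ℝ)).sub hg
    have a2 := (hasDerivAt_const c (2 : ℝ)).sub (hasDerivAt_id c)
    have D := (a1.div a2 h2c.ne').pow 2
    refine HasDerivAt.congr_deriv (f := ff s) (by exact D) ?_
    have hcne := hc0.ne'
    have hkne := hk.ne'
    have h2cne := h2c.ne'
    have h2gne := h2g.ne'
    show (2 : ℕ) * ((2 - gam s c) / (2 - c)) ^ (2 - 1) * (((0 - (2 - c) * g / (c * (2 - g) *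
      (1 - 2 * s * g))) * (2 - c) - (2 - gam s c) * (0 - 1)) / (2 - c) ^ 2) = _
    rw [← hgdef]
    have e : ∀ k : ℝ, k ≠ 0 → ((2 : ℕ) : ℝ) * ((2 - g) / (2 - c)) ^ (2 - 1) *
        (((0 - (2 - c) * g / (c * (2 - g) * k)) * (2 - c) - (2 - g) * (0 - 1)) / (2 - c) ^ 2) =
        2 * ((2 - g) ^ 2 / (2 - c) ^ 3 - g / (k * (c * (2 - c)))) := by
      intro k hk0
      norm_num
      field_simp
      ring
    exact e _ hkne
  · -- ders
    intro s c hc0 hc1
    obtain ⟨g0, g2, gk, ge⟩ := hroot s c hc0 hc1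
    have hg := h2.2.2 s c hc0 hc1
    unfold mm
    have hff : ff s c = ((2 - gam s c) / (2 - c)) ^ 2 := rfl
    rw [hff]
    set g := gam s c with hgdef
    have hk : 0 < 1 - 2 * s * g := by linarith
    have h2c : 0 < 2 - c := by linarith
    have h2g : 0 < 2 - g := by linarith
    have D := ((((hasDerivAt_const s (2 : ℝ)).sub hg).div_const (2 - c))).pow 2
    refine HasDerivAt.congr_deriv (f := fun r => ff r c) (by exact D) ?_
    have hcne := hc0.ne'
    have hkne := hk.ne'
    have h2cne := h2c.ne'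
    have h2gne := h2g.ne'
    show (2 : ℕ) * ((2 - gam s c) / (2 - c)) ^ (2 - 1) * ((0 - -(g * (2 - g) / (1 - 2 * s * g))) /
      (2 - c)) = _
    rw [← hgdef]
    have e : ∀ k : ℝ, k ≠ 0 → ((2 : ℕ) : ℝ) * ((2 - g) / (2 - c)) ^ (2 - 1) *
        ((0 - -(g * (2 - g) / k)) / (2 - c)) =
        c * ((2 - g) / (2 - c)) ^ 2 * (2 * ((2 - g) / (2 - c)) ^ 2 -
          (2 - c) * (2 * ((2 - g) ^ 2 / (2 - c) ^ 3 - g / (k * (c * (2 - c)))))) := by
      intro k hk0
      norm_num
      field_simp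
      ring
    exact e _ hkne
  · -- contf
    unfold ff
    refine ((continuousOn_const.sub hcg).div (continuousOn_const.sub hcc) ?_).pow 2
    rintro ⟨s, c⟩ ⟨-, hc⟩
    have : c < 1 := hc.2
    show (2 : ℝ) - c ≠ 0
    linarith
  · -- contm
    unfold mm
    refine continuousOn_const.mul (ContinuousOn.sub ?_ ?_)
    · refine ((continuousOn_const.sub hcg).pow 2).div ((continuousOn_const.sub hcc).pow 3) ?_
      rintro ⟨s, c⟩ ⟨-, hc⟩
      have : c < 1 := hc.2
      have h2c : (0 : ℝ) < 2 - c := by linarith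
      show ((2 : ℝ) - c) ^ 3 ≠ 0
      positivity
    · refine hcg.div ?_ ?_
      · refine (continuousOn_const.sub ((continuousOn_const.mul
          continuous_fst.continuousOn).mul hcg)).mul (hcc.mul (continuousOn_const.sub hcc))
      · rintro ⟨s, c⟩ ⟨-, hc⟩
        have hc0 : 0 < c := hc.1
        have hc1 : c < 1 := hc.2
        obtain ⟨g0, g2, gk, ge⟩ := hroot s c hc0 hc1
        have hk : 0 < 1 - 2 * s * gam s c := by linarith
        have h2c : (0 : ℝ) < 2 - c := by linarith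
        show (1 - 2 * s * gam s c) * (c * (2 - c)) ≠ 0
        positivity

end Pool.Agent.W303.CW
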